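import Mathlib
import Pool.Agent.H.MP_054fa1_nt.A

namespace Pool.Agent.Results.MP_054fa1_nt.Sparse

open Finset Filter Pool.Agent.H.MP_054fa1_nt

/-- The imaginary part of the product of `1 + k i` over `k = 0..n`. -/
def a (n : ℕ) : ℤ := (∏ k ∈ range (n + 1), (⟨1, (k : ℤ)⟩ : GaussianInt)).im

/-- `n` is `ε`-exceptional for `p`: the normalised valuation is more than `ε` away from `1`. -/
def Exc (p : ℕ) (ε : ℝ) (n : ℕ) : Prop :=
  ε < |((p : ℝ) - 1) * (padicValInt p (a n) : ℝ) / n - 1|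

theorem a_eq (n : ℕ) : a n = (A n).im := by
  unfold a A
  rw [prod_range_succ']
  have : (⟨1, ((0 : ℕ) : ℤ)⟩ : GaussianInt) = 1 := by ext <;> simp
  rw [this, mul_one]
  push_cast
  rfl

theorem logsmall (c : ℝ) (hc : 0 < c) : ∀ᶠ n : ℕ in atTop, Real.log n + 1 ≤ c * n := by
  have h1 := (Real.isLittleO_log_id_atTop.comp_tendsto tendsto_natCast_atTop_atTop).bound
    (half_pos hc)
  have h2 := tendsto_natCast_atTop_atTop (R := ℝ).eventually_ge_atTop (2 / c)
  filter_upwards [h1, h2] with n h1 h2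
  simp only [Function.comp, id, Real.norm_eq_abs] at h1
  rw [abs_of_nonneg (Nat.cast_nonneg (α := ℝ) n)] at h1
  have h3 := le_abs_self (Real.log n)
  rw [div_le_iff₀ hc] at h2
  nlinarith

theorem natlog_le (p x : ℕ) (hp : 3 ≤ p) (hx : x ≠ 0) : (Nat.log p x : ℝ) ≤ Real.log x := by
  have h1 : ((p : ℝ)) ^ Nat.log p x ≤ x := by exact_mod_cast Nat.pow_log_le_self p hx
  have hp' : (3 : ℝ) ≤ p := by exact_mod_cast hp
  have h2 := Real.log_le_log (by positivity) h1
  rw [Real.log_pow] at h2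
  have h3 : 1 ≤ Real.log p := by
    rw [Real.le_log_iff_exp_le (by linarith)]
    have := Real.exp_one_lt_d9
    linarith
  have h4 : (0 : ℝ) ≤ Nat.log p x := Nat.cast_nonneg _
  nlinarith

theorem fact_bounds (p n : ℕ) (hp : p.Prime) (h3 : 3 ≤ p) (hn : n ≠ 0) :
    ((p : ℝ) - 1) * (n.factorial.factorization p : ℝ) ≤ n ∧
      (n : ℝ) - p * (Real.log n + 1) ≤ ((p : ℝ) - 1) * (n.factorial.factorization p : ℝ) := by
  have h := Nat.sub_one_mul_factorization_factorial (n := n) hp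
  have h1 := Nat.digit_sum_le p n
  have h2 : (p.digits n).sum ≤ (p.digits n).length * p := by
    have := List.sum_le_card_nsmul (p.digits n) p fun x hx => (Nat.digits_lt_base hp.one_lt hx).le
    simpa using this
  rw [Nat.length_digits p n hp.one_lt hn] at h2
  have h4 : (((p - 1) * n.factorial.factorization p : ℕ) : ℝ) = ((n - (p.digits n).sum : ℕ) : ℝ) := by
    rw [h]
  rw [Nat.cast_mul, Nat.cast_sub hp.one_lt.le, Nat.cast_sub h1, Nat.cast_one] at h4
  have h5 : (((p.digits n).sum : ℕ) : ℝ) ≤ ((Nat.log p n : ℝ) + 1) * p := by exact_mod_cast h2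
  have h6 := natlog_le p n h3 hn
  have h7 : (0 : ℝ) ≤ (((p.digits n).sum : ℕ) : ℝ) := Nat.cast_nonneg _
  have h8 : (0 : ℝ) ≤ p := Nat.cast_nonneg _
  constructor
  · linarith
  · nlinarith

theorem low (p : ℕ) [hp : Fact p.Prime] (h4 : p % 4 = 1) (ε : ℝ) (hε : 0 < ε) :
    ∀ᶠ n : ℕ in atTop, a n ≠ 0 → 1 - ε ≤ ((p : ℝ) - 1) * (padicValInt p (a n) : ℝ) / n := by
  have h2 := hp.out.two_le
  have hp0 : (0 : ℝ) < p := by exact_mod_cast hp.out.pos
  filter_upwards [logsmall (ε / p) (by positivity), eventually_ge_atTop 1] with n h1 hn ha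
  have hd := lower p h4 n
  rw [← a_eq, padicValInt_dvd_iff] at hd
  have hd' : (n.factorial.factorization p : ℝ) ≤ padicValInt p (a n) := by
    exact_mod_cast hd.resolve_left ha
  have hb := (fact_bounds p n hp.out (by omega) (by omega)).2
  have hn' : (0 : ℝ) < n := by exact_mod_cast hn
  have hp1 : (1 : ℝ) ≤ p := by exact_mod_cast hp.out.one_lt.le
  rw [le_div_iff₀ hn']
  have h5 : p * (Real.log n + 1) ≤ ε * n := by
    calc p * (Real.log n + 1) ≤ p * (ε / p * n) := mul_le_mul_of_nonneg_left h1 hp0.le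
      _ = ε * n := by field_simp
  nlinarith

theorem excdvd (p : ℕ) [hp : Fact p.Prime] (h4 : p % 4 = 1) (ε : ℝ) (hε : 0 < ε) :
    ∀ᶠ n : ℕ in atTop, Exc p ε n → ∀ E : ℕ, ((p : ℝ) - 1) * E ≤ (1 + ε) * n → (p : ℤ) ^ E ∣ a n := by
  filter_upwards [low p h4 ε hε, eventually_ge_atTop 1] with n h1 hn he E hE
  rw [padicValInt_dvd_iff]
  by_cases ha : a n = 0
  · exact Or.inl ha
  right
  have h2 := h1 ha
  have hn' : (0 : ℝ) < n := by exact_mod_cast hn
  have hp1 : (1 : ℝ) < p := by exact_mod_cast hp.out.one_lt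
  unfold Exc at he
  rcases lt_abs.1 he with h | h
  · have h3 : 1 + ε < ((p : ℝ) - 1) * (padicValInt p (a n) : ℝ) / n := by linarith
    rw [lt_div_iff₀ hn'] at h3
    have h5 : (E : ℝ) < padicValInt p (a n) := by
      by_contra hc
      push Not at hc
      nlinarith
    exact_mod_cast h5.le
  · linarith

theorem gaps (p : ℕ) [hp : Fact p.Prime] (h4 : p % 4 = 1) (ε : ℝ) (hε : 0 < ε) :
    ∃ δ : ℝ, 0 < δ ∧ ∃ N₀ : ℕ, ∀ n m : ℕ, N₀ ≤ n → n < m → Exc p ε n → Exc p ε m →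
      δ * n / Real.log n ≤ (m : ℝ) - n := by
  have h2 := hp.out.two_le
  have hp0 : (0 : ℝ) < p := by exact_mod_cast hp.out.pos
  have hp3 : (3 : ℝ) ≤ p := by exact_mod_cast (by omega : 3 ≤ p)
  obtain ⟨N₁, hN₁⟩ := eventually_atTop.1 (excdvd p h4 ε hε)
  obtain ⟨N₂, hN₂⟩ := eventually_atTop.1 (logsmall (ε / (6 * p)) (by positivity))
  refine ⟨min (1 / 2) (ε / (4 * p)), by positivity, max (max N₁ N₂) 3, ?_⟩
  intro n m hn hnm hen hem
  have hn1 : N₁ ≤ n := le_trans (le_trans (le_max_left _ _) (le_max_left _ _)) hn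
  have hn2 : N₂ ≤ n := le_trans (le_trans (le_max_right _ _) (le_max_left _ _)) hn
  have hn3 : 3 ≤ n := le_trans (le_max_right _ _) hn
  have hn3' : (3 : ℝ) ≤ n := by exact_mod_cast hn3
  have hl : 1 ≤ Real.log n := by
    rw [Real.le_log_iff_exp_le (by linarith)]
    have := Real.exp_one_lt_d9
    linarith
  obtain ⟨s, rfl⟩ : ∃ s, m = n + s := ⟨m - n, by omega⟩
  have hs1 : 1 ≤ s := by omega
  rw [div_le_iff₀ (by linarith)]
  push_cast
  have hs0 : (0 : ℝ) ≤ s := Nat.cast_nonneg _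
  by_cases hs : 2 * s ≤ n
  · set L := Nat.log p (n ^ 2 + 1) with hL
    have hm : n ^ 2 + 1 < p ^ (L + 1) := Nat.lt_pow_succ_log_self hp.out.one_lt _
    set t := ⌈ε * n / (2 * p)⌉₊ with ht
    have ht1 : ε * n / (2 * p) ≤ t := Nat.le_ceil _
    have ht2 : (t : ℝ) < ε * n / (2 * p) + 1 := Nat.ceil_lt_add_one (by positivity)
    have hL1 : (L : ℝ) ≤ 3 * Real.log n := by
      have h5 := natlog_le p (n ^ 2 + 1) (by omega) (by positivity)
      have h6 : Real.log ((n ^ 2 + 1 : ℕ) : ℝ) ≤ Real.log ((n : ℝ) ^ 3) := by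
        apply Real.log_le_log (by positivity)
        push_cast; nlinarith
      rw [Real.log_pow] at h6
      push_cast at h6 h5 ⊢
      linarith
    have hb := (fact_bounds p n hp.out (by omega) (by omega)).1
    have hsm := hN₂ n hn2
    have hE : ((p : ℝ) - 1) * ((n.factorial.factorization p + (L + 1) + t + 1 : ℕ) : ℝ) ≤
        (1 + ε) * n := by
      push_cast
      have h7 : (L : ℝ) + 1 + t + 1 ≤ ε * n / p := by
        have : ε * n / p = ε * n / (2 * p) + 3 * (ε / (6 * p) * n) := by field_simp; ring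
        linarith
      have h8 : (p : ℝ) * ((L : ℝ) + 1 + t + 1) ≤ ε * n := by
        rw [le_div_iff₀ hp0] at h7; linarith
      have h9 : (0 : ℝ) ≤ (L : ℝ) + 1 + t + 1 := by positivity
      nlinarith
    have d1 := hN₁ n hn1 hen _ hE
    have d2 := hN₁ (n + s) (by omega) hem _ (hE.trans (by push_cast; nlinarith))
    rw [a_eq] at d1 d2
    have hg := gap p h4 n s L t hm hs1 hs d1 d2
    have hg1 : (n + s + 1) ^ s ≤ (n ^ 2) ^ s := Nat.pow_le_pow_left (by nlinarith) s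
    have hg2 : (t : ℝ) ≤ Real.log (((n ^ 2) ^ s : ℕ) : ℝ) := by
      have h5 := natlog_le p ((n ^ 2) ^ s) (by omega) (by positivity)
      have h6 : t ≤ Nat.log p ((n ^ 2) ^ s) := Nat.le_log_of_pow_le hp.out.one_lt (hg.trans hg1)
      have h7 : (t : ℝ) ≤ Nat.log p ((n ^ 2) ^ s) := by exact_mod_cast h6
      linarith
    push_cast at hg2
    rw [Real.log_pow, Real.log_pow] at hg2
    push_cast at hg2
    have h10 : min (1 / 2) (ε / (4 * p)) * n ≤ ε / (4 * p) * n :=
      mul_le_mul_of_nonneg_right (min_le_right _ _) (by linarith)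
    have h11 : ε / (4 * p) * n = (ε * n / (2 * p)) / 2 := by field_simp; ring
    nlinarith
  · have h5 : (n : ℝ) < 2 * s := by exact_mod_cast (by omega : n < 2 * s)
    have h10 : min (1 / 2) (ε / (4 * p)) * n ≤ 1 / 2 * (n : ℝ) :=
      mul_le_mul_of_nonneg_right (min_le_left _ _) (by linarith)
    nlinarith

theorem block (S : Finset ℕ) (M : ℕ) (g : ℝ) (hg : 0 < g) (hS : ∀ x ∈ S, M ≤ x ∧ x < 2 * M)
    (hgap : ∀ x ∈ S, ∀ y ∈ S, x < y → g ≤ (y : ℝ) - x) : (S.card : ℝ) ≤ M / g + 1 := by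
  have h1 : S.card ≤ (range (⌊(M : ℝ) / g⌋₊ + 1)).card := by
    apply card_le_card_of_injOn (fun x : ℕ => ⌊((x : ℝ) - M) / g⌋₊)
    · intro x hx
      have hx' := hS x hx
      have : (x : ℝ) < 2 * M := by exact_mod_cast hx'.2
      simp only [coe_range, Set.mem_Iio]
      apply Nat.lt_succ_of_le
      apply Nat.floor_le_floor
      apply div_le_div_of_nonneg_right _ hg.le
      linarith
    · have key : ∀ x ∈ S, ∀ y ∈ S, x < y → ⌊((x : ℝ) - M) / g⌋₊ < ⌊((y : ℝ) - M) / g⌋₊ := by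
        intro x hx y hy hxy
        have hx1 : (M : ℝ) ≤ x := by exact_mod_cast (hS x hx).1
        have h2 := hgap x hx y hy hxy
        have h3 : ((x : ℝ) - M) / g + 1 ≤ ((y : ℝ) - M) / g := by
          rw [div_add_one hg.ne']
          apply div_le_div_of_nonneg_right _ hg.le
          linarith
        have h4 := Nat.floor_le_floor h3
        rw [Nat.floor_add_one (div_nonneg (by linarith) hg.le)] at h4
        omega
      intro x hx y hy hxy
      rcases lt_trichotomy x y with h | h | h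
      · exact absurd hxy (key x hx y hy h).ne
      · exact h
      · exact absurd hxy.symm (key y hy x hx h).ne
  rw [card_range] at h1
  have h2 : (S.card : ℝ) ≤ (⌊(M : ℝ) / g⌋₊ : ℝ) + 1 := by exact_mod_cast h1
  have h3 := Nat.floor_le (a := (M : ℝ) / g) (by positivity)
  linarith

open Classical in
theorem count (P : ℕ → Prop) (δ : ℝ) (hδ : 0 < δ) (N₀ : ℕ)
    (h : ∀ n m : ℕ, N₀ ≤ n → n < m → P n → P m → δ * n / Real.log n ≤ (m : ℝ) - n) (j : ℕ) :
    (((range (2 ^ (j + 1))).filter fun n => N₀ ≤ n ∧ P n).card : ℝ) ≤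
      2 + j * ((j + 1) / δ + 1) := by
  induction j with
  | zero =>
    have := card_filter_le (range (2 ^ (0 + 1))) fun n => N₀ ≤ n ∧ P n
    simp only [card_range] at this
    have h2 : (((range (2 ^ (0 + 1))).filter fun n => N₀ ≤ n ∧ P n).card : ℝ) ≤ 2 := by
      exact_mod_cast this
    simpa using h2
  | succ j ih =>
    set M := 2 ^ (j + 1) with hM
    have hM2 : 2 ≤ M := by
      have : 2 ^ 1 ≤ 2 ^ (j + 1) := Nat.pow_le_pow_right (by norm_num) (by omega)
      simpa using this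
    have hM2' : (2 : ℝ) ≤ M := by exact_mod_cast hM2
    have e : ((range (2 ^ (j + 1 + 1))).filter fun n => N₀ ≤ n ∧ P n) ⊆
        ((range M).filter fun n => N₀ ≤ n ∧ P n) ∪
          ((Ico M (2 * M)).filter fun n => N₀ ≤ n ∧ P n) := by
      intro x hx
      simp only [mem_filter, mem_range, mem_union, mem_Ico] at hx ⊢
      have : 2 ^ (j + 1 + 1) = 2 * M := by rw [hM]; ring
      by_cases hx1 : x < M
      · exact Or.inl ⟨hx1, hx.2⟩
      · exact Or.inr ⟨⟨by omega, by omega⟩, hx.2⟩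
    have h1 := (card_le_card e).trans (card_union_le _ _)
    have hj : (0 : ℝ) ≤ j := Nat.cast_nonneg _
    have h2 := block ((Ico M (2 * M)).filter fun n => N₀ ≤ n ∧ P n) M (δ * M / (j + 2))
      (by positivity) (fun x hx => mem_Ico.1 (mem_filter.1 hx).1) (by
        intro x hx y hy hxy
        simp only [mem_filter, mem_Ico] at hx hy
        refine le_trans ?_ (h x y hx.2.1 hxy hx.2.2 hy.2.2)
        have hx1 : (M : ℝ) ≤ x := by exact_mod_cast hx.1.1
        have hx2 : (x : ℝ) ≤ 2 ^ (j + 2) := by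
          have : x ≤ 2 ^ (j + 2) := by
            have : 2 ^ (j + 2) = 2 * M := by rw [hM]; ring
            omega
          exact_mod_cast this
        have hl : 0 < Real.log x := Real.log_pos (by linarith)
        have hl2 : Real.log x ≤ j + 2 := by
          have h5 := Real.log_le_log (by linarith) hx2
          rw [Real.log_pow] at h5
          have h6 := Real.log_two_lt_d9
          push_cast at h5
          nlinarith
        apply div_le_div₀ (by positivity) (by nlinarith) hl hl2)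
    have h3 : (M : ℝ) / (δ * M / (j + 2)) = (j + 2) / δ := by field_simp
    rw [h3] at h2
    have h4 : ((((range (2 ^ (j + 1 + 1))).filter fun n => N₀ ≤ n ∧ P n).card : ℕ) : ℝ) ≤
        (((range M).filter fun n => N₀ ≤ n ∧ P n).card : ℝ) +
          (((Ico M (2 * M)).filter fun n => N₀ ≤ n ∧ P n).card : ℝ) := by exact_mod_cast h1
    have h5 : ((j : ℝ) + 1) / δ ≤ (j + 2) / δ := div_le_div_of_nonneg_right (by linarith) hδ.le
    have h6 : ((j : ℝ) + 1 + 1) / δ = (j + 2) / δ := by ring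
    push_cast
    rw [h6]
    nlinarith

theorem result (p : ℕ) (hp : p.Prime) (h4 : p % 4 = 1) :
    (∀ n : ℕ, (p : ℤ) ^ (padicValNat p n.factorial) ∣ a n) ∧
    (∀ ε : ℝ, 0 < ε → ∃ N₀ : ℕ, ∀ n : ℕ, N₀ ≤ n → a n ≠ 0 →
      1 - ε ≤ ((p : ℝ) - 1) * (padicValInt p (a n) : ℝ) / n) ∧
    (∀ ε : ℝ, 0 < ε → ∃ δ : ℝ, 0 < δ ∧ ∃ N₀ : ℕ, ∀ n m : ℕ, N₀ ≤ n → n < m →
      Exc p ε n → Exc p ε m → δ * n / Real.log n ≤ (m : ℝ) - n) ∧
    (∀ ε : ℝ, 0 < ε → ∃ C : ℝ, ∀ N : ℕ, 2 ≤ N →
      (Set.ncard {n : ℕ | n ≤ N ∧ Exc p ε n} : ℝ) ≤ C * Real.log N ^ 2) := by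
  classical
  have := Fact.mk hp
  refine ⟨fun n => ?_, fun ε hε => eventually_atTop.1 (low p h4 ε hε), gaps p h4, fun ε hε => ?_⟩
  · rw [a_eq, ← Nat.factorization_def _ hp]; exact lower p h4 n
  obtain ⟨δ, hδ, N₀, h⟩ := gaps p h4 ε hε
  refine ⟨4 * (N₀ + 2) + 4 * (2 / δ + 1), fun N hN => ?_⟩
  set j := Nat.log 2 N with hj
  have h1 := count (Exc p ε) δ hδ N₀ h j
  have hN1 : N < 2 ^ (j + 1) := Nat.lt_pow_succ_log_self (by norm_num) _
  have hj1 : 1 ≤ j := Nat.le_log_of_pow_le (by norm_num) (by simpa using hN)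
  have hj1' : (1 : ℝ) ≤ j := by exact_mod_cast hj1
  have e : {n : ℕ | n ≤ N ∧ Exc p ε n} ⊆
      ((range N₀ ∪ (range (2 ^ (j + 1))).filter fun n => N₀ ≤ n ∧ Exc p ε n : Finset ℕ) : Set ℕ) := by
    intro x hx
    simp only [Set.mem_ofPred_eq, coe_union, Set.mem_union, mem_coe, mem_filter, mem_range] at hx ⊢
    by_cases hx1 : x < N₀
    · exact Or.inl hx1
    · exact Or.inr ⟨by omega, by omega, hx.2⟩
  have h2 := Set.ncard_le_ncard e (Finset.finite_toSet _)
  rw [Set.ncard_coe_finset] at h2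
  have h3 := h2.trans (card_union_le _ _)
  rw [card_range] at h3
  have h5 : (Set.ncard {n : ℕ | n ≤ N ∧ Exc p ε n} : ℝ) ≤ N₀ +
      (((range (2 ^ (j + 1))).filter fun n => N₀ ≤ n ∧ Exc p ε n).card : ℝ) := by
    exact_mod_cast h3
  have h6 : (j : ℝ) ≤ 2 * Real.log N := by
    have h7 : (2 : ℝ) ^ j ≤ N := by exact_mod_cast Nat.pow_log_le_self 2 (by omega : N ≠ 0)
    have h8 := Real.log_le_log (by positivity) h7
    rw [Real.log_pow] at h8
    have := Real.log_two_gt_d9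
    nlinarith
  have h7 : (j : ℝ) ^ 2 ≤ 4 * Real.log N ^ 2 := by nlinarith
  have h8 : (j : ℝ) * ((j + 1) / δ + 1) ≤ (2 / δ + 1) * j ^ 2 := by
    have h9 : ((j : ℝ) + 1) / δ ≤ 2 * j / δ := div_le_div_of_nonneg_right (by linarith) hδ.le
    have h10 : (2 / δ + 1) * (j : ℝ) ^ 2 = j * (2 * j / δ + j) := by ring
    rw [h10]
    apply mul_le_mul_of_nonneg_left _ (by linarith)
    linarith
  have h9 : (0 : ℝ) ≤ N₀ := Nat.cast_nonneg _
  have h10 : (0 : ℝ) < 2 / δ + 1 := by positivity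
  have h11 : (1 : ℝ) ≤ 4 * Real.log N ^ 2 := by nlinarith
  have h12 := mul_le_mul_of_nonneg_left h7 h10.le
  have h13 := mul_le_mul_of_nonneg_left h11 (by positivity : (0 : ℝ) ≤ N₀ + 2)
  nlinarith

end Pool.Agent.Results.MP_054fa1_nt.Sparse
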